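import Pool.Agent.helper77.BND.SpecB

set_option autoImplicit false

open scoped Topology Matrix
open Filter Finset

namespace Pool.Agent.BND

open Pool.Agent.CZ Pool.Agent.PV

theorem BFA : BFA_stmt := by
  intro B M _ α A _ ι u c hC m
  have hc1 : ∀ n : ℤ, c n (1 : A) = if n = 0 then 1 else 0 := by
    intro n
    have h := hC.cov.cval n 0 1
    have h2 : ι 1 * up u 0 = (1 : A) := by
      rw [map_one, one_mul]
      simp [up]
    rw [h2] at h
    exact h
  refine ⟨⟨⟨?_, ?_, ?_⟩, ?_⟩, ?_, ?_⟩
  · intro n x y hxy
    rw [hc1]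
    split_ifs <;> rfl
  · intro n x e s i he hs hi hx hn
    rw [hc1, if_neg]
    · rfl
    · rintro rfl
      apply hn
      constructor
      · simp
      · simpa using hi
  · intro H hH
    rw [Finset.sum_eq_single (0 : ℤ)]
    · rw [hc1, if_pos rfl, map_one, one_mul]
      simp [up]
    · intro n _ hn
      rw [hc1, if_neg hn, map_zero, zero_mul]
    · intro h
      exact absurd (Finset.mem_Icc.mpr ⟨by simp, by simp⟩) h
  · intro x e s i he hs hi hx n
    rw [hc1]
    by_cases hn : n = 0
    · subst hn
      rw [if_pos rfl, if_pos ⟨by simp, by simpa using hi⟩]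
      show (1 : ℂ) = if i = ((i : ℤ) - 0).toNat then 1 else 0
      rw [if_pos (by simp)]
    · rw [if_neg hn]
      split_ifs with h1
      · show (0 : ℂ) = if i = ((i : ℤ) - n).toNat then 1 else 0
        rw [if_neg]
        obtain ⟨h3, h4⟩ := h1
        omega
      · rfl
  · intro a b G G' ha hb hG hG'
    refine ⟨⟨?_, ?_, ?_⟩, ?_⟩
    · intro n x y hxy
      rw [map_add, ContinuousMap.add_apply, ContinuousMap.add_apply, ha.lev n x y hxy,
        hb.lev n x y hxy]
    · intro n x e s i he hs hi hx hn
      rw [map_add, ContinuousMap.add_apply, ha.van n x e s i he hs hi hx hn,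
        hb.van n x e s i he hs hi hx hn, add_zero]
    · intro H hH
      have h1 := ha.sum H hH
      have h2 := hb.sum H hH
      have h3 : ∀ n : ℤ, ι (c n (a + b)) * up u n = ι (c n a) * up u n + ι (c n b) * up u n := by
        intro n
        rw [map_add, map_add, add_mul]
      simp_rw [h3]
      rw [Finset.sum_add_distrib, ← h1, ← h2]
    · intro x e s i he hs hi hx n
      rw [map_add, ContinuousMap.add_apply, hG x e s i he hs hi hx n, hG' x e s i he hs hi hx n]
      split_ifs
      · rfl
      · rw [add_zero]
  · intro z a G ha hG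
    refine ⟨⟨?_, ?_, ?_⟩, ?_⟩
    · intro n x y hxy
      rw [map_smul, ContinuousMap.smul_apply, ContinuousMap.smul_apply, ha.lev n x y hxy]
    · intro n x e s i he hs hi hx hn
      rw [map_smul, ContinuousMap.smul_apply, ha.van n x e s i he hs hi hx hn, smul_zero]
    · intro H hH
      have h1 := ha.sum H hH
      have h3 : ∀ n : ℤ, ι (c n (z • a)) * up u n = z • (ι (c n a) * up u n) := by
        intro n
        rw [map_smul, map_smul, smul_mul_assoc]
      simp_rw [h3]
      rw [← Finset.smul_sum, ← h1]
    · intro x e s i he hs hi hx n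
      rw [map_smul, ContinuousMap.smul_apply, hG x e s i he hs hi hx n]
      split_ifs
      · rfl
      · rw [smul_zero]

end Pool.Agent.BND
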